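import Pool.Agent.H2.PD.Stm

/-!
# Project PD (helper2), S_nle (helper230)
-/

set_option autoImplicit false

namespace Pool.Agent.H230.PDnle

open Pool.Agent.H2.PD

theorem sq_half (X : ℝ) (hX : 0 ≤ X) : X ^ (5 / 2 : ℝ) = Real.sqrt (X ^ 5) := by
  rw [Real.sqrt_eq_rpow, ← Real.rpow_natCast_mul hX]
  norm_num

theorem root_back (S : ℝ) (hS : 0 ≤ S) : (S ^ (5 / 2 : ℝ)) ^ (2 / 5 : ℝ) = S := by
  rw [← Real.rpow_mul hS]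
  norm_num

theorem sqrt_add_le (a b c : ℝ) (ha : 0 ≤ a) (hb : 0 ≤ b) (h1 : a + b ≤ c)
    (h2 : 4 * (a * b) ≤ (c - a - b) ^ 2) : Real.sqrt a + Real.sqrt b ≤ Real.sqrt c := by
  apply Real.le_sqrt_of_sq_le
  have e1 : Real.sqrt a ^ 2 = a := Real.sq_sqrt ha
  have e2 : Real.sqrt b ^ 2 = b := Real.sq_sqrt hb
  have h3 : 2 * (Real.sqrt a * Real.sqrt b) ≤ c - a - b := by
    refine le_of_pow_le_pow_left₀ (n := 2) (by norm_num) (by linarith) ?_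
    calc (2 * (Real.sqrt a * Real.sqrt b)) ^ 2 = 4 * (Real.sqrt a ^ 2 * Real.sqrt b ^ 2) := by ring
      _ = 4 * (a * b) := by rw [e1, e2]
      _ ≤ (c - a - b) ^ 2 := h2
  calc (Real.sqrt a + Real.sqrt b) ^ 2
      = Real.sqrt a ^ 2 + Real.sqrt b ^ 2 + 2 * (Real.sqrt a * Real.sqrt b) := by ring
    _ ≤ c := by rw [e1, e2]; linarith

theorem nle : S_nle := by
  intro x y S h1 h2
  have h1' : |(x : ℝ)| ^ 5 + |(y : ℝ)| ^ 5 ≤ (S : ℝ) ^ 5 := by exact_mod_cast h1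
  have h2' : 4 * (|(x : ℝ)| ^ 5 * |(y : ℝ)| ^ 5) ≤
      ((S : ℝ) ^ 5 - |(x : ℝ)| ^ 5 - |(y : ℝ)| ^ 5) ^ 2 := by exact_mod_cast h2
  have hx := abs_nonneg (x : ℝ)
  have hy := abs_nonneg (y : ℝ)
  have hS : (0 : ℝ) ≤ S := Nat.cast_nonneg S
  have key : |(x : ℝ)| ^ (5 / 2 : ℝ) + |(y : ℝ)| ^ (5 / 2 : ℝ) ≤ (S : ℝ) ^ (5 / 2 : ℝ) := by
    rw [sq_half _ hx, sq_half _ hy, sq_half _ hS]
    exact sqrt_add_le _ _ _ (by positivity) (by positivity) h1' h2'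
  unfold N
  calc (|(x : ℝ)| ^ (5 / 2 : ℝ) + |(y : ℝ)| ^ (5 / 2 : ℝ)) ^ (2 / 5 : ℝ)
      ≤ ((S : ℝ) ^ (5 / 2 : ℝ)) ^ (2 / 5 : ℝ) :=
        Real.rpow_le_rpow (by positivity) key (by norm_num)
    _ = S := root_back _ hS

end Pool.Agent.H230.PDnle
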