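import Mathlib
import Pool.Agent.H576.CT.Stm

set_option autoImplicit false

namespace Pool.Agent.H230

open Finset Pool.Agent.TH112.BW Pool.Agent.H576.CT

theorem ct_arith : S_ARITH := by
  intro b g c N M p d s J v m l hb0 hb1 hg hbg hc0 hc1 hN hM hbp hMd hyp
  have hM1 : (1:ℝ) ≤ M := by exact_mod_cast hM
  have hM0 : (0:ℝ) < M := by linarith
  have hg0 : 0 < g := by linarith
  have hv0 : (0:ℝ) ≤ v := Nat.cast_nonneg v
  have hvc : 0 ≤ (v:ℝ) / c := div_nonneg hv0 hc0.le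
  have hMd' : (16:ℝ) * (M:ℝ) ^ p ≤ 2 ^ d := by exact_mod_cast hMd
  -- one summand
  have hterm : ∀ j ∈ range (J + 1),
      (4 : ℝ) ^ j * (l j * (M : ℝ) ^ (p * j + s) + b ^ (p * j + s) * N) ≤
        (11 * (v / c) * g ^ s + N * g ^ s) * (1 / 2) ^ j := by
    intro j hj
    have hjJ : j ≤ J := Nat.lt_succ_iff.1 (mem_range.1 hj)
    obtain ⟨h1, h2, h3⟩ := hyp j hjJ
    have h1' : (l j : ℝ) ≤ 11 * 2 ^ j * m j := by exact_mod_cast h1
    have h2' : (m j : ℝ) * (16 * (M:ℝ) ^ 4) ^ s ≤ v := by exact_mod_cast h2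
    have hm0 : (0:ℝ) ≤ m j := Nat.cast_nonneg _
    -- the square
    have hQ : (m j : ℝ) * (4 * (M:ℝ) ^ 2) ^ s * 2 ^ (j * d) ≤ v / c := by
      refine (pow_le_pow_iff_left₀ (by positivity) hvc two_ne_zero).1 ?_
      have e1 : ((m j : ℝ) * (4 * (M:ℝ) ^ 2) ^ s * 2 ^ (j * d)) ^ 2 =
          ((m j : ℝ) * (16 * (M:ℝ) ^ 4) ^ s) * ((m j : ℝ) * (c * 4 ^ (j * d))) / c := by
        have e2 : (16 * (M:ℝ) ^ 4) ^ s = ((4 * (M:ℝ) ^ 2) ^ s) ^ 2 := by
          have e5 : (4 * (M:ℝ) ^ 2) ^ 2 = 16 * (M:ℝ) ^ 4 := by ring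
          rw [← pow_mul, mul_comm s 2, pow_mul, e5]
        have e3 : (4:ℝ) ^ (j * d) = (2 ^ (j * d)) ^ 2 := by
          have e5 : (4:ℝ) = 2 ^ 2 := by norm_num
          rw [e5, ← pow_mul, ← pow_mul, mul_comm 2 (j * d)]
        rw [e2, e3]
        field_simp
      rw [e1, div_pow]
      have e4 : ((m j : ℝ) * (16 * (M:ℝ) ^ 4) ^ s) * ((m j : ℝ) * (c * 4 ^ (j * d))) ≤
          (v:ℝ) * v := mul_le_mul h2' h3 (by positivity) hv0
      calc ((m j : ℝ) * (16 * (M:ℝ) ^ 4) ^ s) * ((m j : ℝ) * (c * 4 ^ (j * d))) / c ≤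
          (v:ℝ) * v / c := div_le_div_of_nonneg_right e4 hc0.le
        _ ≤ (v:ℝ) ^ 2 / c ^ 2 := by
          rw [← sq]
          apply div_le_div_of_nonneg_left (by positivity) (by positivity)
          nlinarith
    have hA : (4:ℝ) ^ j * (l j * (M : ℝ) ^ (p * j + s)) ≤ 11 * (v / c) * g ^ s * (1 / 2) ^ j := by
      have s1 : (4:ℝ) ^ j * (l j * (M : ℝ) ^ (p * j + s)) ≤
          (4:ℝ) ^ j * ((11 * 2 ^ j * m j) * (M : ℝ) ^ (p * j + s)) := by
        apply mul_le_mul_of_nonneg_left _ (by positivity)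
        exact mul_le_mul_of_nonneg_right h1' (by positivity)
      have s2 : (4:ℝ) ^ j * ((11 * 2 ^ j * m j) * (M : ℝ) ^ (p * j + s)) =
          11 * ((16 * (M:ℝ) ^ p) ^ j * (m j * (M:ℝ) ^ s)) * (1 / 2) ^ j := by
        have t1 : (4:ℝ) ^ j * 2 ^ j = 16 ^ j * (1 / 2) ^ j := by
          rw [← mul_pow, ← mul_pow]
          norm_num
        rw [pow_add, pow_mul, mul_pow]
        calc (4:ℝ) ^ j * ((11 * 2 ^ j * m j) * (((M : ℝ) ^ p) ^ j * (M:ℝ) ^ s)) =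
            (4 ^ j * 2 ^ j) * (11 * (((M : ℝ) ^ p) ^ j * (m j * (M:ℝ) ^ s))) := by ring
          _ = _ := by rw [t1]; ring
      have s3 : (16 * (M:ℝ) ^ p) ^ j ≤ 2 ^ (j * d) := by
        rw [mul_comm j d, pow_mul]
        exact pow_le_pow_left₀ (by positivity) hMd' j
      have s4 : (4:ℝ) ^ s * ((16 * (M:ℝ) ^ p) ^ j * (m j * (M:ℝ) ^ s)) ≤ v / c := by
        refine le_trans ?_ hQ
        have t2 : (M:ℝ) ^ s ≤ ((M:ℝ) ^ 2) ^ s := by
          apply pow_le_pow_left₀ hM0.le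
          nlinarith
        calc (4:ℝ) ^ s * ((16 * (M:ℝ) ^ p) ^ j * (m j * (M:ℝ) ^ s)) ≤
            (4:ℝ) ^ s * (2 ^ (j * d) * (m j * ((M:ℝ) ^ 2) ^ s)) := by
              apply mul_le_mul_of_nonneg_left _ (by positivity)
              exact mul_le_mul s3 (mul_le_mul_of_nonneg_left t2 hm0) (by positivity)
                (by positivity)
          _ = (m j : ℝ) * (4 * (M:ℝ) ^ 2) ^ s * 2 ^ (j * d) := by
            rw [mul_pow]
            ring
      have s5 : (16 * (M:ℝ) ^ p) ^ j * (m j * (M:ℝ) ^ s) ≤ (v / c) * g ^ s := by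
        have t3 : (1:ℝ) ≤ 4 ^ s * g ^ s := by
          rw [← mul_pow]
          exact one_le_pow₀ (by linarith)
        have t4 : 0 ≤ (16 * (M:ℝ) ^ p) ^ j * (m j * (M:ℝ) ^ s) := by positivity
        calc (16 * (M:ℝ) ^ p) ^ j * (m j * (M:ℝ) ^ s) ≤
            (16 * (M:ℝ) ^ p) ^ j * (m j * (M:ℝ) ^ s) * (4 ^ s * g ^ s) :=
              le_mul_of_one_le_right t4 t3
          _ = ((4:ℝ) ^ s * ((16 * (M:ℝ) ^ p) ^ j * (m j * (M:ℝ) ^ s))) * g ^ s := by ring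
          _ ≤ (v / c) * g ^ s := mul_le_mul_of_nonneg_right s4 (by positivity)
      calc (4:ℝ) ^ j * (l j * (M : ℝ) ^ (p * j + s)) ≤ _ := s1
        _ = 11 * ((16 * (M:ℝ) ^ p) ^ j * (m j * (M:ℝ) ^ s)) * (1 / 2) ^ j := s2
        _ ≤ 11 * ((v / c) * g ^ s) * (1 / 2) ^ j := by
          apply mul_le_mul_of_nonneg_right _ (by positivity)
          exact mul_le_mul_of_nonneg_left s5 (by norm_num)
        _ = 11 * (v / c) * g ^ s * (1 / 2) ^ j := by ring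
    have hB : (4:ℝ) ^ j * (b ^ (p * j + s) * N) ≤ N * g ^ s * (1 / 2) ^ j := by
      have s1 : (4:ℝ) ^ j * (b ^ (p * j + s) * N) = (4 * b ^ p) ^ j * (b ^ s * N) := by
        rw [pow_add, pow_mul, mul_pow]
        ring
      have s2 : (4 * b ^ p) ^ j ≤ (1 / 2) ^ j := by
        apply pow_le_pow_left₀ (by positivity)
        linarith
      have s3 : b ^ s ≤ g ^ s := pow_le_pow_left₀ hb0.le hbg s
      rw [s1]
      calc (4 * b ^ p) ^ j * (b ^ s * N) ≤ (1 / 2) ^ j * (g ^ s * N) :=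
            mul_le_mul s2 (mul_le_mul_of_nonneg_right s3 hN) (by positivity) (by positivity)
        _ = N * g ^ s * (1 / 2) ^ j := by ring
    rw [mul_add, add_mul]
    exact add_le_add hA hB
  refine (sum_le_sum hterm).trans ?_
  rw [← mul_sum]
  have hgeo : ∑ j ∈ range (J + 1), ((1:ℝ) / 2) ^ j ≤ 2 := by
    rw [geom_sum_eq (by norm_num)]
    have : (0:ℝ) < (1 / 2) ^ (J + 1) := by positivity
    rw [div_le_iff_of_neg (by norm_num)]
    linarith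
  have hfac : 0 ≤ 11 * ((v:ℝ) / c) * g ^ s + N * g ^ s := by positivity
  calc (11 * ((v:ℝ) / c) * g ^ s + N * g ^ s) * ∑ j ∈ range (J + 1), ((1:ℝ) / 2) ^ j ≤
      (11 * ((v:ℝ) / c) * g ^ s + N * g ^ s) * 2 := mul_le_mul_of_nonneg_left hgeo hfac
    _ = (22 * v / c + 2 * N) * g ^ s := by ring

end Pool.Agent.H230
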