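import Pool.Agent.H252.EL.Iface
import Pool.Agent.H254.BR.Lim

/-!
# Project EL (helper252), S_EX (helper230)
-/

set_option autoImplicit false

noncomputable section

namespace Pool.Agent.H230.ELEX

open Filter Topology
open scoped ENNReal NNReal Matrix.Norms.L2Operator
open Pool.Agent.H188R3 (IsLim)
open Pool.Agent.H252.EL

theorem n_pos (D : Sys) (hD : D.Good) (i : ℕ) : 0 < D.n i := by
  induction i with
  | zero => exact Nat.one_pos
  | succ i ih =>
    have h1 : D.n (i + 1) = D.n i * D.S i := rfl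
    rw [h1]
    have := hD.lt i
    exact Nat.mul_pos ih (by omega)

theorem nontriv (D : Sys) (hD : D.Good) (i : ℕ) : Nontrivial (D.A i) := by
  have h1 : Nonempty (Fin (D.n i)) := ⟨⟨0, n_pos D hD i⟩⟩
  have h2 : Nonempty (D.Z i) := ⟨⟨true, fun _ => 0⟩⟩
  refine ⟨⟨0, 1, fun h => ?_⟩⟩
  obtain ⟨z⟩ := h2
  obtain ⟨a⟩ := h1
  have h3 : (0 : D.A i) z a a = (1 : D.A i) z a a := by rw [h]
  have h4 : (0 : ℂ) = (1 : Matrix (Fin (D.n i)) (Fin (D.n i)) ℂ) a a := h3
  rw [Matrix.one_apply_eq] at h4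
  exact zero_ne_one h4

/-- A point with given coordinate projections. -/
def lift {m d e : ℕ} (x : Cb d) : Cb (m * d + e) :=
  fun k => Fin.addCases (fun k => x (finProdFinEquiv.symm k).2) (fun _ => 0) k

theorem pj_lift {m d e : ℕ} (s : Fin m) (x : Cb d) : pj (e := e) s (lift x) = x := by
  funext a
  rw [pj_apply]
  unfold lift
  rw [Fin.addCases_left, Equiv.symm_apply_apply]

theorem inj (D : Sys) (hD : D.Good) (i : ℕ) : Function.Injective (D.φ i) := by
  rw [injective_iff_map_eq_zero]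
  intro f hf
  ext1 z
  obtain ⟨b, x⟩ := z
  have hm : 0 < D.m i := hD.m_pos i
  have hS : 0 < D.S i := by
    have := hD.lt i
    omega
  have hz : D.l i ⟨0, hS⟩ (⟨b, lift x⟩ : D.Z (i + 1)) = (⟨b, x⟩ : D.Z i) := by
    unfold Sys.l lam
    rw [dif_pos hm]
    show (⟨b, pj ⟨0, hm⟩ (lift x)⟩ : D.Z i) = ⟨b, x⟩
    rw [pj_lift]
  ext a a'
  have h1 := dgv_apply (fun s => D.l i s (⟨b, lift x⟩ : D.Z (i + 1))) (f : D.Z i → _) a a'
    ⟨0, hS⟩ ⟨0, hS⟩
  rw [if_pos rfl, hz] at h1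
  rw [← h1, ← Sys.φ_apply, hf]
  rfl

theorem sep (D : Sys) (i : ℕ) : TopologicalSpace.SeparableSpace (D.A i) := by
  have h0 : SecondCountableTopology (Matrix (Fin (D.n i)) (Fin (D.n i)) ℂ) :=
    inferInstanceAs (SecondCountableTopology (Fin (D.n i) → Fin (D.n i) → ℂ))
  have h1 : TopologicalSpace.SeparableSpace
      C(D.Z i, Matrix (Fin (D.n i)) (Fin (D.n i)) ℂ) := ContinuousMap.instSeparableSpace
  exact h1

theorem metr (D : Sys) (i : ℕ) : TopologicalSpace.MetrizableSpace (D.Z i) := by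
  exact TopologicalSpace.metrizableSpace_of_t3_secondCountable (D.Z i)

theorem s_EX : S_EX := by
  intro D hD
  refine ⟨nontriv D hD, inj D hD, ?_⟩
  intro L _ j hL
  refine ⟨Pool.Agent.H254.BR.lim_separable hL (sep D), ?_⟩
  exact ⟨D.Z, _, _, metr D, D.n, D.φ, j, hL⟩

end Pool.Agent.H230.ELEX
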