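import Pool.Agent.H867.FT.Gen5
import Pool.Agent.H261.FT867PSC

/-!
# Finite algebras over power series rings over perfect fields are F-finite
-/

set_option autoImplicit false

namespace Pool.Agent.H230.FT867FFP

open Pool.Agent.H867.FT MvPowerSeries

/-- a criterion for finite ring homomorphisms -/
theorem fin_of {A B ι : Type} [CommRing A] [CommRing B] [Fintype ι] (f : A →+* B) (m : ι → B)
    (h : ∀ b, ∃ c : ι → A, b = ∑ i, f (c i) * m i) : f.Finite := by
  classical
  let _ : Algebra A B := f.toAlgebra
  refine ⟨⟨Finset.univ.image m, ?_⟩⟩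
  rw [eq_top_iff]
  rintro b -
  obtain ⟨c, hc⟩ := h b
  rw [hc]
  refine Submodule.sum_mem _ fun i _ => ?_
  have h2 : m i ∈ ((Finset.univ.image m : Finset B) : Set B) := by
    rw [Finset.coe_image]
    exact ⟨i, Finset.mem_coe.2 (Finset.mem_univ i), rfl⟩
  exact Submodule.smul_mem _ (c i) (Submodule.subset_span h2)

/-- the power series ring is F-finite -/
theorem frob_fin (p : ℕ) [Fact p.Prime] (k : Type) [Field k] [CharP k p] [PerfectRing k p] (d : ℕ)
    [CharP (MvPowerSeries (Fin d) k) p] : (frobenius (MvPowerSeries (Fin d) k) p).Finite := by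
  refine fin_of _ (fun a : Fin d → Fin (p ^ 1) =>
    monomial (Pool.Agent.H261.FT867.ex d a) (1 : k)) fun g =>
    ⟨fun a => Pool.Agent.H261.FT867.cmp p k d 1 (Pool.Agent.H261.FT867.ex d a) g, ?_⟩
  have h1 := Pool.Agent.H261.FT867.expansion p k d 1 g
  have h2 : ∀ x : MvPowerSeries (Fin d) k,
      frobenius (MvPowerSeries (Fin d) k) p x = x ^ p ^ 1 := by
    intro x
    rw [frobenius_def, pow_one]
  refine h1.symm.trans (Finset.sum_congr rfl fun a _ => ?_)
  rw [h2]

theorem ffp : S_FFP := by
  intro p _ k _ _ _ d S _ _ _ _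
  have hP : CharP (MvPowerSeries (Fin d) k) p :=
    charP_of_injective_ringHom (f := (MvPowerSeries.C : k →+* MvPowerSeries (Fin d) k))
      MvPowerSeries.C_injective p
  have h1 := frob_fin p k d
  have h2 := RingHom.frobenius_comm (algebraMap (MvPowerSeries (Fin d) k) S) p
  have h3 : (algebraMap (MvPowerSeries (Fin d) k) S).Finite := RingHom.finite_algebraMap.2 inferInstance
  have h4 : ((frobenius S p).comp (algebraMap (MvPowerSeries (Fin d) k) S)).Finite := by
    rw [← h2]
    exact h3.comp h1
  exact RingHom.Finite.of_comp_finite h4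

end Pool.Agent.H230.FT867FFP
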